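import Pool.Agent.Helper43.AX.St

/-!
# Project AX, module CA: all conjugates `a_i` commute
-/

set_option autoImplicit false

namespace Pool.Agent.Helper94.AX

open Pool.Agent.Helper43.GD
open Pool.Agent.Helper43.AX (StCA)

section

variable {G : Type} [Group G]

private theorem cj_zero (a t : G) : cj a t 0 = a := by
  simp [cj]

private theorem cj_shift (a t : G) (i k : ℤ) : t ^ (-k) * cj a t i * t ^ k = cj a t (i + k) := by
  unfold cj
  have h1 : t ^ (-(i + k)) = t ^ (-k) * t ^ (-i) := by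
    rw [← zpow_add]; congr 1; ring
  have h2 : t ^ (i + k) = t ^ i * t ^ k := zpow_add t i k
  rw [h1, h2]
  group

private theorem l_pow (m : ℕ) (t l : G) (h : l⁻¹ * t * l = t ^ m) (i : ℤ) :
    l⁻¹ * t ^ i * l = t ^ ((m : ℤ) * i) := by
  have h1 : (l⁻¹ * t * l) ^ i = l⁻¹ * t ^ i * l := by
    have := conj_zpow (i := i) (a := l⁻¹) (b := t)
    simpa using this
  rw [← h1, h, zpow_mul, zpow_natCast]

private theorem l_cj (m : ℕ) (a t l : G) (hla : l * a = a * l) (h : l⁻¹ * t * l = t ^ m)
    (i : ℤ) : l⁻¹ * cj a t i * l = cj a t ((m : ℤ) * i) := by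
  unfold cj
  have h1 := l_pow m t l h (-i)
  have h2 := l_pow m t l h i
  have h3 : (m : ℤ) * (-i) = -((m : ℤ) * i) := by ring
  rw [h3] at h1
  rw [← h1, ← h2]
  have h4 : l⁻¹ * a * l = a := by
    rw [mul_assoc, ← hla]; group
  calc l⁻¹ * (t ^ (-i) * a * t ^ i) * l
      = (l⁻¹ * t ^ (-i) * l) * (l⁻¹ * a * l) * (l⁻¹ * t ^ i * l) := by group
    _ = (l⁻¹ * t ^ (-i) * l) * a * (l⁻¹ * t ^ i * l) := by rw [h4]

end

theorem hCA : StCA := by
  intro G _ m a t l hla hlt hS
  -- shift of the hypothesis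
  have F3 : ∀ i : ℤ, cj a t (i + m) = cj a t i * cj a t (i + 1) := by
    intro i
    have h1 := cj_shift a t (m : ℤ) i
    rw [hS] at h1
    have h2 : t ^ (-i) * (a * cj a t 1) * t ^ i =
        (t ^ (-i) * cj a t 0 * t ^ i) * (t ^ (-i) * cj a t 1 * t ^ i) := by
      rw [cj_zero]; group
    rw [h2, cj_shift, cj_shift] at h1
    rw [zero_add, add_comm 1 i] at h1
    rw [add_comm i (m : ℤ), ← h1]
  have F4 : ∀ i : ℤ, cj a t ((m : ℤ) * m + i) = cj a t i * (cj a t i * cj a t (i + 1)) := by
    intro i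
    have h0 : cj a t ((m : ℤ) * m) = cj a t 0 * (cj a t 0 * cj a t 1) := by
      have h1 := l_cj m a t l hla hlt (m : ℤ)
      have h2 := l_cj m a t l hla hlt 0
      have h3 := l_cj m a t l hla hlt 1
      rw [mul_zero] at h2
      rw [mul_one] at h3
      rw [← h1]
      have h4 : cj a t (m : ℤ) = cj a t 0 * cj a t 1 := by
        have := F3 0
        rwa [zero_add, zero_add] at this
      calc l⁻¹ * cj a t (m : ℤ) * l = l⁻¹ * (cj a t 0 * cj a t 1) * l := by rw [h4]
        _ = (l⁻¹ * cj a t 0 * l) * (l⁻¹ * cj a t 1 * l) := by group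
        _ = cj a t 0 * cj a t (m : ℤ) := by rw [h2, h3]
        _ = cj a t 0 * (cj a t 0 * cj a t 1) := by rw [h4]
    have h1 := cj_shift a t ((m : ℤ) * m) i
    rw [h0] at h1
    have h2 : t ^ (-i) * (cj a t 0 * (cj a t 0 * cj a t 1)) * t ^ i =
        (t ^ (-i) * cj a t 0 * t ^ i) * ((t ^ (-i) * cj a t 0 * t ^ i) *
          (t ^ (-i) * cj a t 1 * t ^ i)) := by group
    rw [h2, cj_shift, cj_shift, zero_add, add_comm 1 i] at h1
    exact h1.symm
  have hm : cj a t (m : ℤ) = cj a t 0 * cj a t 1 := by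
    have := F3 0
    rwa [zero_add, zero_add] at this
  have h10 : cj a t 1 * cj a t 0 = cj a t 0 * cj a t 1 := by
    have e1 := F4 (m : ℤ)
    have e2 := F3 ((m : ℤ) * m)
    have e3 : cj a t ((m : ℤ) + 1) = cj a t 1 * cj a t 2 := by
      have := F3 1
      rw [add_comm (1 : ℤ) (m : ℤ)] at this
      simpa using this
    have e4 : cj a t ((m : ℤ) * m) = cj a t 0 * (cj a t 0 * cj a t 1) := by
      have := F4 0
      rwa [add_zero, zero_add] at this
    have e5 : cj a t ((m : ℤ) * m + 1) = cj a t 1 * (cj a t 1 * cj a t 2) := by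
      have := F4 1
      simpa using this
    rw [e1, hm, e3, e4, e5] at e2
    have e6 : cj a t 0 * (cj a t 1 * cj a t 0) * (cj a t 1 * (cj a t 1 * cj a t 2)) =
        cj a t 0 * (cj a t 0 * cj a t 1) * (cj a t 1 * (cj a t 1 * cj a t 2)) := by
      rw [← e2]; group
    exact mul_left_cancel (mul_right_cancel e6)
  -- the set D
  have key : ∀ i j : ℤ, Commute (cj a t 0) (cj a t (j - i)) → Commute (cj a t i) (cj a t j) := by
    intro i j h
    have h1 := cj_shift a t 0 i
    have h2 := cj_shift a t (j - i) i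
    rw [zero_add] at h1
    rw [sub_add_cancel] at h2
    unfold Commute SemiconjBy at h ⊢
    rw [← h1, ← h2]
    calc t ^ (-i) * cj a t 0 * t ^ i * (t ^ (-i) * cj a t (j - i) * t ^ i)
        = t ^ (-i) * (cj a t 0 * cj a t (j - i)) * t ^ i := by group
      _ = t ^ (-i) * (cj a t (j - i) * cj a t 0) * t ^ i := by rw [h]
      _ = t ^ (-i) * cj a t (j - i) * t ^ i * (t ^ (-i) * cj a t 0 * t ^ i) := by group
  have sym : ∀ d : ℤ, Commute (cj a t 0) (cj a t d) → Commute (cj a t 0) (cj a t (-d)) := by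
    intro d h
    have h' : Commute (cj a t (-d)) (cj a t 0) := by
      apply key
      simpa using h
    exact h'.symm
  have pat1 : ∀ i : ℤ, Commute (cj a t 0) (cj a t i) → Commute (cj a t 0) (cj a t (i + m)) →
      Commute (cj a t 0) (cj a t (i + 1)) := by
    intro i h1 h2
    have h3 : cj a t (i + 1) = (cj a t i)⁻¹ * cj a t (i + m) := by
      rw [F3 i]; group
    rw [h3]
    exact (h1.inv_right).mul_right h2
  have pat2 : ∀ i : ℤ, Commute (cj a t 0) (cj a t (i + 1)) →
      Commute (cj a t 0) (cj a t (i + m)) → Commute (cj a t 0) (cj a t i) := by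
    intro i h1 h2
    have h3 : cj a t i = cj a t (i + m) * (cj a t (i + 1))⁻¹ := by
      rw [F3 i]; group
    rw [h3]
    exact h2.mul_right (h1.inv_right)
  have ind : ∀ n : ℕ, Commute (cj a t 0) (cj a t ((n : ℤ) + 1)) ∧
      Commute (cj a t 0) (cj a t ((m : ℤ) + ((n : ℤ) + 1))) := by
    intro n
    induction n with
    | zero =>
      have c1 : Commute (cj a t 0) (cj a t 1) := h10.symm
      have cm : Commute (cj a t 0) (cj a t (m : ℤ)) := by
        rw [hm]
        exact (Commute.refl _).mul_right c1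
      refine ⟨by simpa using c1, ?_⟩
      have h1 : Commute (cj a t 0) (cj a t (-(m : ℤ) - 1)) := by
        apply pat2
        · have : -(m : ℤ) - 1 + 1 = -(m : ℤ) := by ring
          rw [this]; exact sym _ cm
        · have : -(m : ℤ) - 1 + m = -1 := by ring
          rw [this]; exact sym _ c1
      have h2 := sym _ h1
      have : -(-(m : ℤ) - 1) = (m : ℤ) + (((0 : ℕ) : ℤ) + 1) := by push_cast; ring
      rwa [this] at h2
    | succ n ih =>
      obtain ⟨i1, i2⟩ := ih
      have s1 : Commute (cj a t 0) (cj a t (((n + 1 : ℕ) : ℤ) + 1)) := by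
        have h := pat1 ((n : ℤ) + 1) i1 (by
          have : (n : ℤ) + 1 + m = (m : ℤ) + ((n : ℤ) + 1) := by ring
          rw [this]; exact i2)
        push_cast
        exact h
      refine ⟨s1, ?_⟩
      have h1 : Commute (cj a t 0) (cj a t (-((m : ℤ) + (((n + 1 : ℕ) : ℤ) + 1)))) := by
        apply pat2
        · have : -((m : ℤ) + (((n + 1 : ℕ) : ℤ) + 1)) + 1 = -((m : ℤ) + ((n : ℤ) + 1)) := by
            push_cast; ring
          rw [this]; exact sym _ i2
        · have : -((m : ℤ) + (((n + 1 : ℕ) : ℤ) + 1)) + m = -(((n + 1 : ℕ) : ℤ) + 1) := by ring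
          rw [this]; exact sym _ s1
      have h2 := sym _ h1
      rwa [neg_neg] at h2
  have all : ∀ d : ℤ, Commute (cj a t 0) (cj a t d) := by
    intro d
    rcases lt_trichotomy d 0 with h | h | h
    · have h1 := (ind ((-d - 1).toNat)).1
      have h2 : (((-d - 1).toNat : ℕ) : ℤ) + 1 = -d := by
        rw [Int.toNat_of_nonneg (by omega)]; ring
      rw [h2] at h1
      have h3 := sym _ h1
      rwa [neg_neg] at h3
    · rw [h]
    · have h1 := (ind ((d - 1).toNat)).1
      have h2 : (((d - 1).toNat : ℕ) : ℤ) + 1 = d := by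
        rw [Int.toNat_of_nonneg (by omega)]; ring
      rwa [h2] at h1
  intro i j
  exact key i j (all _)

end Pool.Agent.Helper94.AX
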